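import Mathlib

/-!
MP_1d57ab: there is a Furstenberg family `F` such that the backward shift `T` on the Frechet space of
all scalar sequences satisfies: `S ⊕ T` is `F`-hypercyclic for every `F`-hypercyclic `S`, but `T` is
not hereditarily `F`-hypercyclic (no operator is).
-/

set_option autoImplicit false

open Set Filter Topology

namespace Pool.Agent.Results.MP_1d57ab_an.DirectSumNotHereditary

/-- The visit set `N_T(x, V) = {n : T^n x ∈ V}`. -/
def visit {X : Type*} (T : X → X) (x : X) (V : Set X) : Set ℕ := {n | T^[n] x ∈ V}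

/-- A Furstenberg family: non-empty subsets of `ℕ`, hereditary upwards. -/
def IsFurstenberg (F : Set (Set ℕ)) : Prop :=
  (∀ A ∈ F, A.Nonempty) ∧ ∀ A ∈ F, ∀ A' : Set ℕ, A ⊆ A' → A' ∈ F

/-- `F`-hypercyclicity of a self-map of a topological space. -/
def FHyp (F : Set (Set ℕ)) {X : Type*} [TopologicalSpace X] (T : X → X) : Prop :=
  ∃ x : X, ∀ V : Set X, IsOpen V → V.Nonempty → visit T x V ∈ F

/-- Hereditary `F`-hypercyclicity of a self-map of a topological space. -/
def HerFHyp (F : Set (Set ℕ)) {X : Type*} [TopologicalSpace X] (T : X → X) : Prop :=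
  ∀ (I : Type) [Countable I] (V : I → Set X) (A : I → Set ℕ),
    (∀ i, IsOpen (V i)) → (∀ i, (V i).Nonempty) → (∀ i, A i ∈ F) →
      ∃ x : X, ∀ i, visit T x (V i) ∩ A i ∈ F

/-- The `k`-th block: the powers `2 ^ m` with `m = ⟨k, j⟩` for the Cantor pairing. -/
def block (k : ℕ) : Set ℕ := Set.range fun j => 2 ^ Nat.pair k j

/-- The family of all sets containing one of the blocks up to finitely many elements. -/
def fam : Set (Set ℕ) := {A | ∃ k, (block k \ A).Finite}

/-- The backward shift on the space of all scalar sequences. -/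
def bshift (𝕜 : Type*) [RCLike 𝕜] : (ℕ → 𝕜) →L[𝕜] (ℕ → 𝕜) where
  toFun x := fun n => x (n + 1)
  map_add' _ _ := rfl
  map_smul' _ _ := rfl
  cont := by fun_prop

lemma pow_pair_inj {k k' j j' : ℕ} (h : (2:ℕ) ^ Nat.pair k j = 2 ^ Nat.pair k' j') :
    k = k' ∧ j = j' := by
  have h1 := Nat.pow_right_injective (le_refl 2) h
  exact Nat.pair_eq_pair.mp h1

lemma block_infinite (k : ℕ) : (block k).Infinite := by
  apply Set.infinite_range_of_injective
  intro j j' h
  exact (pow_pair_inj h).2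

lemma block_disjoint {k k' : ℕ} (h : k ≠ k') : Disjoint (block k) (block k') := by
  rw [Set.disjoint_left]
  rintro _ ⟨j, rfl⟩ ⟨j', h'⟩
  exact h (pow_pair_inj h').1.symm

lemma fam_furst : IsFurstenberg fam := by
  refine ⟨?_, ?_⟩
  · rintro A ⟨k, hk⟩
    by_contra hne
    rw [Set.not_nonempty_iff_eq_empty] at hne
    rw [hne, Set.sdiff_empty] at hk
    exact block_infinite k hk
  · rintro A ⟨k, hk⟩ A' hAA'
    exact ⟨k, hk.subset (Set.sdiff_subset_sdiff_right hAA')⟩

/-- No map of a space with two disjoint non-empty open sets is hereditarily `fam`-hypercyclic. -/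
lemma not_her {X : Type*} [TopologicalSpace X] [T2Space X] [Nontrivial X] (T : X → X) :
    ¬ HerFHyp fam T := by
  intro h
  obtain ⟨p, q, hpq⟩ := exists_pair_ne X
  obtain ⟨U, V, hU, hV, hpU, hqV, hUV⟩ := t2_separation hpq
  have h0 : block 0 ∈ fam := ⟨0, by simp⟩
  obtain ⟨x, hx⟩ := h Bool (fun b => if b then U else V) (fun _ => block 0)
    (by intro b; cases b <;> simp [hU, hV])
    (by intro b; cases b
        · exact ⟨q, by simpa using hqV⟩
        · exact ⟨p, by simpa using hpU⟩)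
    (fun _ => h0)
  have key : ∀ b : Bool, (block 0 \ visit T x (if b then U else V)).Finite := by
    intro b
    obtain ⟨k, hk⟩ := hx b
    by_cases hk0 : k = 0
    · subst hk0
      refine hk.subset ?_
      intro n hn
      exact ⟨hn.1, fun h' => hn.2 h'.1⟩
    · exfalso
      apply block_infinite k
      refine hk.subset ?_
      intro n hn
      exact ⟨hn, fun h' => Set.disjoint_left.mp (block_disjoint hk0) hn h'.2⟩
  have h1 := key true
  have h2 := key false
  apply block_infinite 0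
  refine (h1.union h2).subset ?_
  intro n hn
  by_cases hnU : T^[n] x ∈ U
  · right
    refine ⟨hn, fun h' => ?_⟩
    exact Set.disjoint_left.mp hUV hnU (by simpa [visit] using h')
  · left
    exact ⟨hn, fun h' => hnU (by simpa [visit] using h')⟩

/-- If every visit set of `z` to a non-empty open subset is in `fam`, then for a non-empty open set
`V` there are infinitely many blocks almost contained in the visit set. -/
lemma exists_new_block {Y : Type*} [TopologicalSpace Y] [T2Space Y] (S : Y → Y) (z : Y)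
    (hz : ∀ V : Set Y, IsOpen V → V.Nonempty → visit S z V ∈ fam)
    (V : Set Y) (hV : IsOpen V) (hinf : V.Infinite) (K : Finset ℕ) :
    ∃ k, k ∉ K ∧ (block k \ visit S z V).Finite := by
  classical
  by_contra hcon
  push Not at hcon
  obtain ⟨P, hPV, hPc⟩ := hinf.exists_subset_card_eq (K.card + 1)
  obtain ⟨U, hU, hdis⟩ := P.finite_toSet.t2_separation
  have hk : ∀ p ∈ P, ∃ k, (block k \ visit S z (U p ∩ V)).Finite := fun p hp =>
    hz _ ((hU p).2.inter hV) ⟨p, (hU p).1, hPV hp⟩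
  choose! k hk using hk
  have hkK : ∀ p ∈ P, k p ∈ K := by
    intro p hp
    by_contra h'
    refine hcon (k p) h' ((hk p hp).subset ?_)
    intro n hn
    exact ⟨hn.1, fun h'' => hn.2 h''.2⟩
  obtain ⟨p, hp, q, hq, hpq, hkpq⟩ :=
    Finset.exists_ne_map_eq_of_card_lt_of_maps_to (by omega : K.card < P.card) hkK
  have h1 := hk p hp
  have h2 := hk q hq
  rw [← hkpq] at h2
  apply block_infinite (k p)
  refine (h1.union h2).subset ?_
  intro n hn
  by_cases hnU : S^[n] z ∈ U p
  · right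
    refine ⟨hn, fun h' => ?_⟩
    exact Set.disjoint_left.mp (hdis hp hq hpq) hnU h'.1
  · left
    exact ⟨hn, fun h' => hnU h'.1⟩

/-- Greedy injective choice. -/
lemma exists_inj_choice (Q : ℕ → ℕ → Prop) (h : ∀ i (K : Finset ℕ), ∃ k, k ∉ K ∧ Q i k) :
    ∃ f : ℕ → ℕ, Function.Injective f ∧ ∀ i, Q i (f i) := by
  classical
  choose g hg1 hg2 using h
  -- build the list of values
  let L : ℕ → Finset ℕ := fun n => Nat.rec ∅ (fun i K => insert (g i K) K) n
  have hL : ∀ n, L (n + 1) = insert (g n (L n)) (L n) := fun n => rfl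
  have hmono : Monotone L := monotone_nat_of_le_succ fun n => by
    rw [hL]; exact Finset.subset_insert _ _
  refine ⟨fun i => g i (L i), ?_, fun i => hg2 i _⟩
  have hlt : ∀ i j, i < j → g i (L i) ≠ g j (L j) := by
    intro i j hij heq
    apply hg1 j (L j)
    rw [← heq]
    have : g i (L i) ∈ L (i + 1) := by rw [hL]; exact Finset.mem_insert_self _ _
    exact hmono hij this
  intro i j hij
  rcases lt_trichotomy i j with h' | h' | h'
  · exact absurd hij (hlt i j h')
  · exact h'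
  · exact absurd hij.symm (hlt j i h')

lemma bshift_iter (𝕜 : Type*) [RCLike 𝕜] (x : ℕ → 𝕜) (n : ℕ) :
    (bshift 𝕜)^[n] x = fun t => x (t + n) := by
  induction n generalizing x with
  | zero => rfl
  | succ n ih =>
    rw [Function.iterate_succ_apply, ih]
    funext t
    show x (t + n + 1) = x (t + (n + 1))
    rfl

/-- For every sequence of vectors `w k` there is `x` with `T^{n} x → w k` along block `k`. -/
lemma exists_block_vector (𝕜 : Type*) [RCLike 𝕜] (w : ℕ → ℕ → 𝕜) :
    ∃ x : ℕ → 𝕜, ∀ k, ∀ V : Set (ℕ → 𝕜), IsOpen V → w k ∈ V →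
      (block k \ visit (bshift 𝕜) x V).Finite := by
  refine ⟨fun n => w (Nat.unpair (Nat.log 2 n)).1 (n - 2 ^ Nat.log 2 n), ?_⟩
  intro k V hV hkV
  set x : ℕ → 𝕜 := fun n => w (Nat.unpair (Nat.log 2 n)).1 (n - 2 ^ Nat.log 2 n) with hx
  have hval : ∀ j t, t < 2 ^ Nat.pair k j → x (t + 2 ^ Nat.pair k j) = w k t := by
    intro j t ht
    have hlog : Nat.log 2 (t + 2 ^ Nat.pair k j) = Nat.pair k j := by
      rw [Nat.log_eq_iff (Or.inr ⟨by norm_num, by positivity⟩)]
      constructor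
      · omega
      · rw [pow_succ]; omega
    simp only [hx, hlog, Nat.unpair_pair]
    congr 1
    omega
  have htend : Tendsto (fun j => (bshift 𝕜)^[2 ^ Nat.pair k j] x) atTop (𝓝 (w k)) := by
    rw [tendsto_pi_nhds]
    intro t
    refine tendsto_const_nhds.congr' ?_
    filter_upwards [eventually_gt_atTop t] with j hj
    rw [bshift_iter]
    symm
    apply hval
    have h1 : j ≤ Nat.pair k j := Nat.right_le_pair k j
    have h2 : Nat.pair k j < 2 ^ Nat.pair k j := Nat.lt_two_pow_self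
    omega
  have hev := htend.eventually (hV.mem_nhds hkV)
  rw [← Nat.cofinite_eq_atTop, Filter.eventually_cofinite] at hev
  refine (hev.image fun j => 2 ^ Nat.pair k j).subset ?_
  rintro _ ⟨⟨j, rfl⟩, hn⟩
  exact ⟨j, hn, rfl⟩

lemma sum_fhyp (𝕜 : Type*) [RCLike 𝕜] {Y : Type*} [AddCommGroup Y] [Module 𝕜 Y]
    [TopologicalSpace Y] [IsTopologicalAddGroup Y] [ContinuousSMul 𝕜 Y] [PolishSpace Y]
    [Nontrivial Y] (S : Y →L[𝕜] Y) (hS : FHyp fam S) :
    FHyp fam (S.prodMap (bshift 𝕜)) := by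
  classical
  obtain ⟨z, hz⟩ := hS
  obtain ⟨b, hbc, hbne, hb⟩ := TopologicalSpace.exists_countable_basis Y
  have : Nonempty Y := ⟨0⟩
  have hbn : b.Nonempty := by
    obtain ⟨v, hv, -⟩ := hb.exists_subset_of_mem_open (Set.mem_univ (0 : Y)) isOpen_univ
    exact ⟨v, hv⟩
  obtain ⟨U, hU⟩ := hbc.exists_eq_range hbn
  have hUopen : ∀ i, IsOpen (U i) := fun i => hb.isOpen (hU ▸ Set.mem_range_self i)
  have hUne : ∀ i, (U i).Nonempty := by
    intro i
    rw [Set.nonempty_iff_ne_empty]
    intro h'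
    exact hbne (h' ▸ hU ▸ Set.mem_range_self i)
  have hUinf : ∀ i, (U i).Infinite := by
    intro i
    obtain ⟨y, hy⟩ := hUne i
    have : NeBot (𝓝[≠] y) := Module.punctured_nhds_neBot 𝕜 Y y
    exact infinite_of_mem_nhds y ((hUopen i).mem_nhds hy)
  -- dense sequence
  let d : ℕ → (ℕ → 𝕜) := TopologicalSpace.denseSeq (ℕ → 𝕜)
  have hd : DenseRange d := TopologicalSpace.denseRange_denseSeq _
  obtain ⟨f, hfinj, hf⟩ := exists_inj_choice
    (fun p k => (block k \ visit S z (U (Nat.unpair p).1)).Finite)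
    (fun p K => exists_new_block S z hz _ (hUopen _) (hUinf _) K)
  -- the targets
  let w : ℕ → ℕ → 𝕜 := fun k => d (Nat.unpair (Function.invFun f k)).2
  obtain ⟨x, hx⟩ := exists_block_vector 𝕜 w
  refine ⟨(z, x), ?_⟩
  rintro V hV ⟨⟨y0, x0⟩, hyx⟩
  obtain ⟨V1, V2, hV1, hV2, hy0, hx0, hVV⟩ := isOpen_prod_iff.mp hV y0 x0 hyx
  obtain ⟨v, hvb, hy0v, hvV1⟩ := hb.exists_subset_of_mem_open hy0 hV1
  obtain ⟨i, rfl⟩ : v ∈ Set.range U := hU ▸ hvb
  obtain ⟨j, hj⟩ := hd.exists_mem_open hV2 ⟨x0, hx0⟩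
  set k := f (Nat.pair i j) with hk
  have hinv : Function.invFun f k = Nat.pair i j := Function.leftInverse_invFun hfinj _
  have h1 : (block k \ visit S z (U i)).Finite := by
    have := hf (Nat.pair i j)
    simpa using this
  have h2 : (block k \ visit (bshift 𝕜) x V2).Finite := by
    apply hx k V2 hV2
    show d (Nat.unpair (Function.invFun f k)).2 ∈ V2
    rw [hinv]
    simpa using hj
  have hiter : ∀ n, (S.prodMap (bshift 𝕜))^[n] (z, x) = (S^[n] z, (bshift 𝕜)^[n] x) := by
    intro n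
    have : (⇑(S.prodMap (bshift 𝕜)) : Y × (ℕ → 𝕜) → Y × (ℕ → 𝕜)) = Prod.map S (bshift 𝕜) := rfl
    rw [this, Prod.map_iterate]
    rfl
  refine ⟨k, (h1.union h2).subset ?_⟩
  intro n hn
  by_cases hnU : S^[n] z ∈ U i
  · right
    refine ⟨hn.1, fun h' => hn.2 ?_⟩
    show (S.prodMap (bshift 𝕜))^[n] (z, x) ∈ V
    rw [hiter]
    exact hVV ⟨hvV1 hnU, h'⟩
  · left
    exact ⟨hn.1, fun h' => hnU h'⟩

lemma bshift_fhyp (𝕜 : Type*) [RCLike 𝕜] : FHyp fam (bshift 𝕜) := by
  let d : ℕ → (ℕ → 𝕜) := TopologicalSpace.denseSeq (ℕ → 𝕜)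
  have hd : DenseRange d := TopologicalSpace.denseRange_denseSeq _
  obtain ⟨x, hx⟩ := exists_block_vector 𝕜 d
  refine ⟨x, ?_⟩
  intro V hV hne
  obtain ⟨j, hj⟩ := hd.exists_mem_open hV hne
  exact ⟨j, hx j V hV hj⟩

lemma seq_infinite_dim (𝕜 : Type*) [RCLike 𝕜] : ¬ FiniteDimensional 𝕜 (ℕ → 𝕜) := by
  intro h
  have h1 : LinearIndependent 𝕜 (fun i : ℕ => (Pi.single i (1 : 𝕜) : ℕ → 𝕜)) :=
    Pi.linearIndependent_single_one ℕ 𝕜
  exact Infinite.not_finite (α := ℕ) h1.finite

/-- **MP_1d57ab.** Over `𝕜 = ℝ` or `ℂ` there is a Furstenberg family `F` such that the backward shift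
`T` on the separable Frechet space of all scalar sequences is `F`-hypercyclic, `S ⊕ T` is
`F`-hypercyclic for every `F`-hypercyclic operator `S` on any infinite-dimensional Polish topological
vector space, and `T` is not hereditarily `F`-hypercyclic; in fact no operator on an
infinite-dimensional Polish topological vector space is. -/
theorem result.{u} (𝕜 : Type) [RCLike 𝕜] :
    PolishSpace (ℕ → 𝕜) ∧ ¬ FiniteDimensional 𝕜 (ℕ → 𝕜) ∧
    ∃ F : Set (Set ℕ), IsFurstenberg F ∧ FHyp F (bshift 𝕜) ∧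
      (∀ (Y : Type u) [AddCommGroup Y] [Module 𝕜 Y] [TopologicalSpace Y]
        [IsTopologicalAddGroup Y] [ContinuousSMul 𝕜 Y] [PolishSpace Y],
        ¬ FiniteDimensional 𝕜 Y → ∀ S : Y →L[𝕜] Y, FHyp F S → FHyp F (S.prodMap (bshift 𝕜))) ∧
      ¬ HerFHyp F (bshift 𝕜) ∧
      (∀ (Y : Type u) [AddCommGroup Y] [Module 𝕜 Y] [TopologicalSpace Y]
        [IsTopologicalAddGroup Y] [ContinuousSMul 𝕜 Y] [PolishSpace Y],
        ¬ FiniteDimensional 𝕜 Y → ∀ S : Y →L[𝕜] Y, ¬ HerFHyp F S) := by
  refine ⟨inferInstance, seq_infinite_dim 𝕜, fam, fam_furst, bshift_fhyp 𝕜, ?_, ?_, ?_⟩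
  · intro Y _ _ _ _ _ _ hfd S hS
    have : Nontrivial Y := by
      by_contra hn
      rw [not_nontrivial_iff_subsingleton] at hn
      exact hfd inferInstance
    exact sum_fhyp 𝕜 S hS
  · exact not_her _
  · intro Y _ _ _ _ _ _ hfd S
    have : Nontrivial Y := by
      by_contra hn
      rw [not_nontrivial_iff_subsingleton] at hn
      exact hfd inferInstance
    exact not_her _

end Pool.Agent.Results.MP_1d57ab_an.DirectSumNotHereditary
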